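import Pool.Agent.U571.GF.Fwd

/-! Every finite language of words of length two which maps to the language of `G` belongs to the
family of `G`: the nonterminals are typed by their yield. -/

namespace Pool.Agent.U571.GF

theorem fin_forall2 (μ : ℕ → Finset ℕ) (x : List ℕ) :
    {y | List.Forall₂ (fun b a => b ∈ μ a) y x}.Finite := by
  induction x with
  | nil =>
    apply Set.Finite.subset (Set.finite_singleton [])
    intro y hy
    exact List.forall₂_nil_right_iff.mp hy
  | cons a x ih =>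
    apply Set.Finite.subset (((μ a).finite_toSet.prod ih).image
      (fun p : ℕ × List ℕ => p.1 :: p.2))
    intro y hy
    obtain ⟨b, u, hb, hu, rfl⟩ := List.forall₂_cons_right_iff.mp hy
    exact ⟨(b, u), ⟨hb, hu⟩, rfl⟩

/-- code of the nonterminal `A` typed by the word `w` -/
def enc (M A : ℕ) (w : List ℕ) : ℕ := M + 1 + Encodable.encode (A, w)

theorem enc_inj {M A A' : ℕ} {w w' : List ℕ} (h : enc M A w = enc M A' w') : A = A' ∧ w = w' := by
  unfold enc at h
  have := Encodable.encode_injective (Nat.add_left_cancel h)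
  simpa using this

/-- the yield of a letter -/
def yl (M b : ℕ) : List ℕ :=
  if b < M then [b] else
    ((Encodable.decode (α := ℕ × List ℕ) (b - (M + 1))).map Prod.snd).getD []

theorem yl_enc (M A : ℕ) (w : List ℕ) : yl M (enc M A w) = w := by
  have h1 : ¬ (enc M A w < M) := by unfold enc; omega
  have h2 : enc M A w - (M + 1) = Encodable.encode (A, w) := by unfold enc; omega
  unfold yl
  rw [if_neg h1, h2, Encodable.encodek]
  rfl

/-- typed versions of a word -/
inductive Typ (T : Finset ℕ) (M : ℕ) (X : Finset ℕ) (W : Finset (List ℕ)) (h : ℕ → ℕ) :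
    List ℕ → List ℕ → List ℕ → Prop
  | nil : Typ T M X W h [] [] []
  | term {b : ℕ} {x x' w : List ℕ} : b ∈ X → h b ∈ T → Typ T M X W h x x' w →
      Typ T M X W h (h b :: x) (b :: x') (b :: w)
  | non {A : ℕ} {u x x' w : List ℕ} : A ∉ T → u ∈ W → Typ T M X W h x x' w →
      Typ T M X W h (A :: x) (enc M A u :: x') (u ++ w)

section
variable {T : Finset ℕ} {M : ℕ} {X : Finset ℕ} {W : Finset (List ℕ)} {h : ℕ → ℕ}

theorem Typ.append {x₁ x₂ y₁ y₂ w₁ w₂ : List ℕ} (h1 : Typ T M X W h x₁ y₁ w₁)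
    (h2 : Typ T M X W h x₂ y₂ w₂) : Typ T M X W h (x₁ ++ x₂) (y₁ ++ y₂) (w₁ ++ w₂) := by
  induction h1 with
  | nil => simpa using h2
  | term hb hT _ ih => exact .term hb hT ih
  | non hA hu _ ih =>
    rw [List.append_assoc]
    exact .non hA hu ih

theorem Typ.split {x₁ x₂ y w : List ℕ} (h1 : Typ T M X W h (x₁ ++ x₂) y w) :
    ∃ y₁ y₂ w₁ w₂, y = y₁ ++ y₂ ∧ w = w₁ ++ w₂ ∧ Typ T M X W h x₁ y₁ w₁ ∧
      Typ T M X W h x₂ y₂ w₂ := by
  induction x₁ generalizing y w with
  | nil => exact ⟨[], y, [], w, rfl, rfl, .nil, h1⟩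
  | cons a x₁ ih =>
    rw [List.cons_append] at h1
    cases h1 with
    | term hb hT h2 =>
      obtain ⟨y₁, y₂, w₁, w₂, rfl, rfl, h3, h4⟩ := ih h2
      exact ⟨_ :: y₁, y₂, _ :: w₁, w₂, rfl, rfl, .term hb hT h3, h4⟩
    | non hA hu h2 =>
      obtain ⟨y₁, y₂, w₁, w₂, rfl, rfl, h3, h4⟩ := ih h2
      exact ⟨_ :: y₁, y₂, _ ++ w₁, w₂, rfl, by simp, .non hA hu h3, h4⟩

theorem Typ.yield (hX : ∀ b ∈ X, b < M) {x y w : List ℕ} (h1 : Typ T M X W h x y w) :
    y.flatMap (yl M) = w ∧ M ∉ y := by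
  induction h1 with
  | nil => simp
  | @term b x x' w hb _ _ ih =>
    have h3 : yl M b = [b] := by unfold yl; rw [if_pos (hX b hb)]
    refine ⟨by simp [h3, ih.1], ?_⟩
    have := hX b hb
    simp only [List.mem_cons, not_or]
    exact ⟨by omega, ih.2⟩
  | @non A u x x' w _ _ _ ih =>
    refine ⟨by simp [yl_enc, ih.1], ?_⟩
    simp only [List.mem_cons, not_or]
    exact ⟨by unfold enc; omega, ih.2⟩

theorem typ_terminal {w : List ℕ} (hw : ∀ b ∈ w, b ∈ X) (hT : ∀ a ∈ w.map h, a ∈ T) :
    Typ T M X W h (w.map h) w w := by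
  induction w with
  | nil => exact .nil
  | cons b w ih =>
    exact .term (hw b (by simp)) (hT _ (by simp))
      (ih (fun c hc => hw c (by simp [hc])) (fun a ha => hT a (by
        simp only [List.map_cons, List.mem_cons]; exact Or.inr ha)))

end

/-- all words of length at most two over `X` -/
def words2 (X : Finset ℕ) : Finset (List ℕ) :=
  {[]} ∪ X.image (fun x => [x]) ∪ (X ×ˢ X).image (fun p => [p.1, p.2])

theorem mem_words2 {X : Finset ℕ} {w : List ℕ} :
    w ∈ words2 X ↔ w.length ≤ 2 ∧ ∀ b ∈ w, b ∈ X := by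
  unfold words2
  simp only [Finset.mem_union, Finset.mem_singleton, Finset.mem_image, Finset.mem_product,
    Prod.exists]
  constructor
  · rintro ((rfl | ⟨a, ha, rfl⟩) | ⟨a, b, ⟨ha, hb⟩, rfl⟩)
    · simp
    · simp [ha]
    · simp [ha, hb]
  · rintro ⟨h1, h2⟩
    match w, h1, h2 with
    | [], _, _ => simp
    | [a], _, h2 => exact Or.inl (Or.inr ⟨a, h2 a (by simp), rfl⟩)
    | [a, b], _, h2 => exact Or.inr ⟨a, b, ⟨h2 a (by simp), h2 b (by simp)⟩, rfl⟩

theorem infix_words2 {X : Finset ℕ} {u v w : List ℕ} (h : u ++ v ++ w ∈ words2 X) :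
    v ∈ words2 X := by
  rw [mem_words2] at h ⊢
  refine ⟨?_, fun b hb => h.2 b (by simp [hb])⟩
  have := h.1
  simp only [List.length_append] at this
  omega

/-- the substitution of the construction -/
def subst (G : Form) (M : ℕ) (X : Finset ℕ) (h : ℕ → ℕ) (a : ℕ) : Finset ℕ :=
  if a ∈ G.T then X.filter (fun b => h b = a)
  else if a = G.S then insert M ((words2 X).image (enc M a))
  else (words2 X).image (enc M a)

theorem mem_subst_non {G : Form} {M : ℕ} {X : Finset ℕ} {h : ℕ → ℕ} {a b : ℕ} (ha : a ∉ G.T) :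
    b ∈ subst G M X h a ↔ (b = M ∧ a = G.S) ∨ ∃ u ∈ words2 X, enc M a u = b := by
  unfold subst
  rw [if_neg ha]
  split_ifs with hS <;> simp [hS]

theorem typ_forall2 {G : Form} {M : ℕ} {X : Finset ℕ} {h : ℕ → ℕ} {x y w : List ℕ}
    (ht : Typ G.T M X (words2 X) h x y w) :
    List.Forall₂ (fun b a => b ∈ subst G M X h a) y x := by
  induction ht with
  | nil => exact .nil
  | term hb hT _ ih =>
    refine .cons ?_ ih
    unfold subst
    rw [if_pos hT]
    simpa using hb
  | non hA hu _ ih =>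
    refine .cons ?_ ih
    rw [mem_subst_non hA]
    exact Or.inr ⟨_, hu, rfl⟩

/-- the typed productions -/
def prods (G : Form) (M : ℕ) (X : Finset ℕ) (h : ℕ → ℕ) (L : Set (List ℕ)) :
    Set (ℕ × List ℕ) :=
  {q | ∃ A x w, (A, x) ∈ G.P ∧ Typ G.T M X (words2 X) h x q.2 w ∧
    ((q.1 = enc M A w ∧ w ∈ words2 X) ∨ (q.1 = M ∧ A = G.S ∧ w ∈ L))}

/-- the alphabet of the typed form -/
def tV (G : Form) (M : ℕ) (X : Finset ℕ) : Finset ℕ :=
  X ∪ {M} ∪ ((G.V \ G.T) ×ˢ words2 X).image (fun p => enc M p.1 p.2)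

theorem mem_tV {G : Form} {M : ℕ} {X : Finset ℕ} {b : ℕ} :
    b ∈ tV G M X ↔ b ∈ X ∨ b = M ∨ ∃ A u, A ∈ G.V ∧ A ∉ G.T ∧ u ∈ words2 X ∧ enc M A u = b := by
  unfold tV
  simp only [Finset.mem_union, Finset.mem_singleton, Finset.mem_image, Finset.mem_product,
    Finset.mem_sdiff, Prod.exists]
  constructor
  · rintro ((h | h) | ⟨A, u, ⟨⟨h1, h2⟩, h3⟩, h4⟩)
    · exact Or.inl h
    · exact Or.inr (Or.inl h)
    · exact Or.inr (Or.inr ⟨A, u, h1, h2, h3, h4⟩)
  · rintro (h | h | ⟨A, u, h1, h2, h3, h4⟩)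
    · exact Or.inl (Or.inl h)
    · exact Or.inl (Or.inr h)
    · exact Or.inr ⟨A, u, ⟨⟨h1, h2⟩, h3⟩, h4⟩

/-- the typed form -/
def typed (G : Form) (M : ℕ) (X : Finset ℕ) (h : ℕ → ℕ) (L : Set (List ℕ))
    (hX : ∀ b ∈ X, b < M) : Form where
  V := tV G M X
  T := X
  T_sub := by
    intro a ha
    exact mem_tV.mpr (Or.inl ha)
  P := prods G M X h L
  P_fin := by
    have h1 : (⋃ r ∈ G.P, {q : ℕ × List ℕ | q.1 ∈ subst G M X h r.1 ∧
        List.Forall₂ (fun b a => b ∈ subst G M X h a) q.2 r.2}).Finite := by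
      refine Set.Finite.biUnion G.P_fin (fun r _ => ?_)
      apply Set.Finite.subset (((subst G M X h r.1).finite_toSet).prod
        (fin_forall2 (subst G M X h) r.2))
      rintro ⟨a, b⟩ ⟨h1, h2⟩
      exact ⟨h1, h2⟩
    refine h1.subset ?_
    rintro ⟨B, y⟩ ⟨A, x, w, hA, ht, hB⟩
    simp only [Set.mem_iUnion]
    have hAT := (G.P_mem _ hA).2.1
    refine ⟨(A, x), hA, ?_, typ_forall2 ht⟩
    simp only at hB hAT ⊢
    rw [mem_subst_non hAT]
    rcases hB with ⟨rfl, hw⟩ | ⟨rfl, rfl, _⟩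
    · exact Or.inr ⟨w, hw, rfl⟩
    · exact Or.inl ⟨rfl, rfl⟩
  P_mem := by
    rintro ⟨B, y⟩ ⟨A, x, w, hA, ht, hB⟩
    have h3 := G.P_mem _ hA
    simp only at h3 hB ht ⊢
    refine ⟨?_, ?_, ?_⟩
    · rcases hB with ⟨rfl, hw⟩ | ⟨rfl, rfl, _⟩
      · exact mem_tV.mpr (Or.inr (Or.inr ⟨A, w, h3.1, h3.2.1, hw, rfl⟩))
      · exact mem_tV.mpr (Or.inr (Or.inl rfl))
    · intro hBX
      have h4 := hX B hBX
      rcases hB with ⟨rfl, hw⟩ | ⟨rfl, rfl, _⟩
      · unfold enc at h4; omega
      · omega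
    · have h5 : ∀ x y w, Typ G.T M X (words2 X) h x y w → (∀ a ∈ x, a ∈ G.V) → ∀ b ∈ y,
          b ∈ tV G M X := by
        intro x y w ht
        induction ht with
        | nil => simp
        | term hb _ _ ih =>
          intro hx b hb'
          rcases List.mem_cons.mp hb' with rfl | hb'
          · exact mem_tV.mpr (Or.inl hb)
          · exact ih (fun a ha => hx a (List.mem_cons_of_mem _ ha)) b hb'
        | @non A u _ _ _ hA hu _ ih =>
          intro hx b hb'
          rcases List.mem_cons.mp hb' with rfl | hb'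
          · exact mem_tV.mpr (Or.inr (Or.inr ⟨A, u, hx A (by simp), hA, hu, rfl⟩))
          · exact ih (fun a ha => hx a (List.mem_cons_of_mem _ ha)) b hb'
      exact h5 x y w ht h3.2.2
  S := M
  S_mem := by
    refine ⟨mem_tV.mpr (Or.inr (Or.inl rfl)), fun hM => ?_⟩
    have := hX M hM
    omega

theorem typed_interp (G : Form) (M : ℕ) (X : Finset ℕ) (h : ℕ → ℕ) (L : Set (List ℕ))
    (hX : ∀ b ∈ X, b < M) :
    DFL G.V (subst G M X h) ∧ Interp G (typed G M X h L hX) (subst G M X h) := by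
  have hbig : ∀ a ∉ G.T, ∀ b ∈ subst G M X h a, M ≤ b := by
    intro a ha b hb
    rw [mem_subst_non ha] at hb
    rcases hb with ⟨rfl, _⟩ | ⟨u, _, rfl⟩
    · exact le_rfl
    · unfold enc; omega
  have hsmall : ∀ a ∈ G.T, ∀ b ∈ subst G M X h a, b ∈ X ∧ h b = a := by
    intro a ha b hb
    unfold subst at hb
    rw [if_pos ha] at hb
    simpa using hb
  refine ⟨?_, ⟨?_, ?_, ?_, ?_⟩⟩
  · intro a _ b _ hab
    rw [Finset.disjoint_left]
    intro c hca hcb
    by_cases ha : a ∈ G.T <;> by_cases hb : b ∈ G.T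
    · exact hab ((hsmall a ha c hca).2.symm.trans (hsmall b hb c hcb).2)
    · have h1 := hX c (hsmall a ha c hca).1
      have h2 := hbig b hb c hcb
      omega
    · have h1 := hX c (hsmall b hb c hcb).1
      have h2 := hbig a ha c hca
      omega
    · rw [mem_subst_non ha] at hca
      rw [mem_subst_non hb] at hcb
      rcases hca with ⟨rfl, ha'⟩ | ⟨u, _, rfl⟩
      · rcases hcb with ⟨_, hb'⟩ | ⟨v, _, hv⟩
        · exact hab (ha'.trans hb'.symm)
        · unfold enc at hv; omega
      · rcases hcb with ⟨hM, _⟩ | ⟨v, _, hv⟩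
        · unfold enc at hM; omega
        · exact hab (enc_inj hv).1.symm
  · intro A hA hT b hb
    constructor
    · rw [mem_subst_non hT] at hb
      show b ∈ tV G M X
      rcases hb with ⟨rfl, _⟩ | ⟨u, hu, rfl⟩
      · exact mem_tV.mpr (Or.inr (Or.inl rfl))
      · exact mem_tV.mpr (Or.inr (Or.inr ⟨A, u, hA, hT, hu, rfl⟩))
    · intro hbX
      have h1 := hX b hbX
      have h2 := hbig A hT b hb
      omega
  · intro a ha b hb
    exact (hsmall a ha b hb).1
  · rintro ⟨B, y⟩ ⟨A, x, w, hA, ht, hB⟩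
    have hAT := (G.P_mem _ hA).2.1
    refine ⟨(A, x), hA, ?_, typ_forall2 ht⟩
    simp only at hB hAT ⊢
    rw [mem_subst_non hAT]
    rcases hB with ⟨rfl, hw⟩ | ⟨rfl, rfl, _⟩
    · exact Or.inr ⟨w, hw, rfl⟩
    · exact Or.inl ⟨rfl, rfl⟩
  · rw [mem_subst_non G.S_mem.2]
    exact Or.inl ⟨rfl, rfl⟩

theorem typed_lang (G : Form) (M : ℕ) (X : Finset ℕ) (h : ℕ → ℕ) (L : Set (List ℕ))
    (hX : ∀ b ∈ X, b < M) (hL2 : ∀ w ∈ L, w ∈ words2 X) (hL : ∀ w ∈ L, w.map h ∈ G.lang) :
    (typed G M X h L hX).lang = L := by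
  set G' := typed G M X h L hX with hG'
  apply Set.Subset.antisymm
  · rintro w ⟨hwT, hw⟩
    have key : ∀ β, Relation.ReflTransGen G'.Step [M] β →
        β = [M] ∨ (M ∉ β ∧ β.flatMap (yl M) ∈ L) := by
      intro β hβ
      induction hβ with
      | refl => exact Or.inl rfl
      | tail _ hs ih =>
        obtain ⟨l, r, B, y, hB, rfl, rfl⟩ := hs
        obtain ⟨A, x, w', hA, ht, hB'⟩ := hB
        simp only at hB' ht
        have hy := ht.yield hX
        right
        rcases ih with ih | ⟨hM, hL'⟩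
        · have h1 : l = [] ∧ r = [] := by
            have := congrArg List.length ih
            simp only [List.length_append, List.length_cons, List.length_nil] at this
            constructor <;> apply List.eq_nil_of_length_eq_zero <;> omega
          obtain ⟨rfl, rfl⟩ := h1
          simp only [List.nil_append, List.append_nil, List.cons.injEq, and_true] at ih
          subst ih
          rcases hB' with ⟨hM, _⟩ | ⟨_, _, hw'⟩
          · unfold enc at hM; omega
          · simp only [List.nil_append, List.append_nil]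
            exact ⟨hy.2, by rw [hy.1]; exact hw'⟩
        · have hBM : B ≠ M := by
            rintro rfl
            exact hM (by simp)
          rcases hB' with ⟨rfl, _⟩ | ⟨hM', _, _⟩
          · refine ⟨?_, ?_⟩
            · simp only [List.mem_append, List.mem_singleton, not_or] at hM ⊢
              exact ⟨⟨hM.1.1, hy.2⟩, hM.2⟩
            · simp only [List.flatMap_append, List.flatMap_cons, List.flatMap_nil, yl_enc,
                List.append_nil] at hL' ⊢
              rw [hy.1]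
              exact hL'
          · exact absurd hM' hBM
    have hid : ∀ w : List ℕ, (∀ b ∈ w, b ∈ X) → w.flatMap (yl M) = w := by
      intro w
      induction w with
      | nil => intro _; rfl
      | cons b w ih =>
        intro hb
        have h3 : yl M b = [b] := by unfold yl; rw [if_pos (hX b (hb b (by simp)))]
        rw [List.flatMap_cons, h3, ih (fun c hc => hb c (by simp [hc]))]
        rfl
    rcases key w hw with rfl | ⟨_, h2⟩
    · have := hX M (hwT M (by simp))
      omega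
    · rwa [hid w hwT] at h2
  · intro w hw
    have hwX := (mem_words2.mp (hL2 w hw)).2
    refine ⟨hwX, ?_⟩
    have hwG := hL w hw
    -- completeness of the typed derivations
    have key : ∀ α, Relation.ReflTransGen G.Step α (w.map h) →
        ∃ α', Typ G.T M X (words2 X) h α α' w ∧ Relation.ReflTransGen G'.Step α' w := by
      intro α hα
      induction hα using Relation.ReflTransGen.head_induction_on with
      | refl => exact ⟨w, typ_terminal hwX hwG.1, .refl⟩
      | head hs _ ih =>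
        obtain ⟨β', ht, hder⟩ := ih
        obtain ⟨l, r, A, x, hA, rfl, rfl⟩ := hs
        obtain ⟨y₁, yr, w₁, wr, rfl, hwe, ht1, htr⟩ := ht.split
        obtain ⟨yl', yx, wl, wx, rfl, rfl, htl, htx⟩ := ht1.split
        have hAT := (G.P_mem _ hA).2.1
        have hwx : wx ∈ words2 X := infix_words2 (hwe ▸ hL2 w hw)
        refine ⟨yl' ++ [enc M A wx] ++ yr, ?_, ?_⟩
        · rw [hwe]
          have h1 : Typ G.T M X (words2 X) h [A] [enc M A wx] wx := by
            have := Typ.non (x := []) (x' := []) (w := []) (M := M) (X := X) (h := h) hAT hwx .nil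
            simpa using this
          exact (htl.append h1).append htr
        · refine Relation.ReflTransGen.head ?_ hder
          exact ⟨yl', yr, enc M A wx, yx, ⟨A, x, wx, hA, htx, Or.inl ⟨rfl, hwx⟩⟩, rfl, rfl⟩
    show Relation.ReflTransGen G'.Step [M] w
    rcases Relation.ReflTransGen.cases_head hwG.2 with h1 | ⟨β, hs, hβ⟩
    · exfalso
      exact G.S_mem.2 (hwG.1 G.S (by rw [← h1]; simp))
    · obtain ⟨l, r, A, x, hA, h1, rfl⟩ := hs
      have h2 : l = [] ∧ r = [] := by
        have := congrArg List.length h1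
        simp only [List.length_append, List.length_cons, List.length_nil] at this
        constructor <;> apply List.eq_nil_of_length_eq_zero <;> omega
      obtain ⟨rfl, rfl⟩ := h2
      simp only [List.nil_append, List.append_nil, List.cons.injEq, and_true] at h1 hβ
      subst h1
      obtain ⟨x', ht, hder⟩ := key x hβ
      refine Relation.ReflTransGen.head ?_ hder
      exact ⟨[], [], M, x', ⟨G.S, x, w, hA, ht, Or.inr ⟨rfl, rfl, hw⟩⟩, rfl, by simp⟩

/-- the backward half -/
theorem family_bwd {G : Form} {L : Set (List ℕ)} (hf : L.Finite) (h2 : ∀ w ∈ L, w.length = 2)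
    {h : ℕ → ℕ} (hh : ∀ w ∈ L, w.map h ∈ G.lang) :
    ∃ G' : Form, (∃ μ, DFL G.V μ ∧ Interp G G' μ) ∧ G'.lang = L := by
  classical
  let X : Finset ℕ := hf.toFinset.biUnion (fun w => w.toFinset)
  have hXm : ∀ w ∈ L, ∀ b ∈ w, b ∈ X := by
    intro w hw b hb
    simp only [X, Finset.mem_biUnion]
    exact ⟨w, by simpa using hw, by simpa using hb⟩
  have hM : ∃ M, ∀ b ∈ X, b < M :=
    ⟨X.sup id + 1, fun b hb => Nat.lt_succ_of_le (Finset.le_sup (f := id) hb)⟩
  obtain ⟨M, hM⟩ := hM
  refine ⟨typed G M X h L hM, ⟨_, typed_interp G M X h L hM⟩, ?_⟩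
  exact typed_lang G M X h L hM (fun w hw => mem_words2.mpr ⟨(h2 w hw).le, hXm w hw⟩) hh

end Pool.Agent.U571.GF
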