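import Mathlib

/-! Grammar forms, interpretations, grammatical families and dense pairs (letters are natural
numbers). -/

namespace Pool.Agent.U571.GF

/-- A grammar form: a context-free grammar whose letters are natural numbers; `V` is the total
alphabet, `T` the terminals, `P` the finite set of productions, `S` the start symbol. -/
structure Form where
  V : Finset ℕ
  T : Finset ℕ
  T_sub : T ⊆ V
  P : Set (ℕ × List ℕ)
  P_fin : P.Finite
  P_mem : ∀ q ∈ P, q.1 ∈ V ∧ q.1 ∉ T ∧ ∀ a ∈ q.2, a ∈ V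
  S : ℕ
  S_mem : S ∈ V ∧ S ∉ T

/-- one derivation step -/
def Form.Step (G : Form) (u v : List ℕ) : Prop :=
  ∃ l r A x, (A, x) ∈ G.P ∧ u = l ++ [A] ++ r ∧ v = l ++ x ++ r

/-- the language generated by `G` -/
def Form.lang (G : Form) : Set (List ℕ) :=
  {w | (∀ a ∈ w, a ∈ G.T) ∧ Relation.ReflTransGen G.Step [G.S] w}

/-- `μ` is a dfl-substitution on the alphabet `V` -/
def DFL (V : Finset ℕ) (μ : ℕ → Finset ℕ) : Prop :=
  ∀ a ∈ V, ∀ b ∈ V, a ≠ b → Disjoint (μ a) (μ b)

/-- `G'` is an interpretation of `G` modulo `μ` -/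
structure Interp (G G' : Form) (μ : ℕ → Finset ℕ) : Prop where
  nonterm : ∀ A ∈ G.V, A ∉ G.T → ∀ b ∈ μ A, b ∈ G'.V ∧ b ∉ G'.T
  term : ∀ a ∈ G.T, μ a ⊆ G'.T
  prod : ∀ q ∈ G'.P, ∃ r ∈ G.P, q.1 ∈ μ r.1 ∧ List.Forall₂ (fun b a => b ∈ μ a) q.2 r.2
  start : G'.S ∈ μ G.S

/-- the family of `G`, every language being taken modulo the empty word -/
def Form.family (G : Form) : Set (Set (List ℕ)) :=
  {L | ∃ (G' : Form) (μ : ℕ → Finset ℕ), DFL G.V μ ∧ Interp G G' μ ∧ L = G'.lang \ {[]}}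

/-- grammatical families -/
def Grammatical (F : Set (Set (List ℕ))) : Prop := ∃ G : Form, F = G.family

/-- the pair `(F, F')` of families is dense -/
def DensePair (F F' : Set (Set (List ℕ))) : Prop :=
  F ⊂ F' ∧ ∀ F₁ F₂, Grammatical F₁ → Grammatical F₂ → F ⊆ F₁ → F₁ ⊂ F₂ → F₂ ⊆ F' →
    ∃ F₃, Grammatical F₃ ∧ F₁ ⊂ F₃ ∧ F₃ ⊂ F₂

/-- the form with productions `S → ab`, `S → ba` -/
def F₁ : Form where
  V := {0, 1, 2}
  T := {1, 2}
  T_sub := by decide
  P := {(0, [1, 2]), (0, [2, 1])}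
  P_fin := by simp
  P_mem := by
    intro q hq
    rcases hq with rfl | rfl <;> simp
  S := 0
  S_mem := by decide

/-- the form with the single production `S → aa` -/
def F₂ : Form where
  V := {0, 1}
  T := {1}
  T_sub := by decide
  P := {(0, [1, 1])}
  P_fin := by simp
  P_mem := by
    intro q hq
    rcases hq with rfl
    simp
  S := 0
  S_mem := by decide

end Pool.Agent.U571.GF
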