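import Pool.Agent.U571.GF.Defs

namespace Pool.Agent.U571.GF

theorem step_app {G : Form} {u v : List ℕ} (h : G.Step u v) (l r : List ℕ) :
    G.Step (l ++ u ++ r) (l ++ v ++ r) := by
  obtain ⟨l', r', A, x, hA, rfl, rfl⟩ := h
  exact ⟨l ++ l', r' ++ r, A, x, hA, by simp, by simp⟩

theorem der_app {G : Form} {u v : List ℕ} (h : Relation.ReflTransGen G.Step u v) (l r : List ℕ) :
    Relation.ReflTransGen G.Step (l ++ u ++ r) (l ++ v ++ r) := by
  induction h with
  | refl => exact .refl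
  | tail _ h2 ih => exact ih.tail (step_app h2 l r)

/-- interpretations give letter maps into the language of the form -/
theorem fwd {G G' : Form} {μ : ℕ → Finset ℕ} (hd : DFL G.V μ) (hI : Interp G G' μ) :
    ∃ h : ℕ → ℕ, ∀ w ∈ G'.lang, w.map h ∈ G.lang := by
  classical
  let h : ℕ → ℕ := fun b => if hb : ∃ a ∈ G.V, b ∈ μ a then hb.choose else 0
  have hh : ∀ a ∈ G.V, ∀ b ∈ μ a, h b = a := by
    intro a ha b hb
    have hex : ∃ a ∈ G.V, b ∈ μ a := ⟨a, ha, hb⟩
    have h1 : h b = hex.choose := dif_pos hex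
    rw [h1]
    obtain ⟨h2, h3⟩ := hex.choose_spec
    by_contra hne
    exact (Finset.disjoint_left.mp (hd _ h2 _ ha hne) h3) hb
  have hmap : ∀ y x : List ℕ, List.Forall₂ (fun b a => b ∈ μ a) y x → (∀ a ∈ x, a ∈ G.V) →
      y.map h = x ∧ ∀ b ∈ y, ∃ a ∈ G.V, b ∈ μ a := by
    intro y x hf
    induction hf with
    | nil => intro _; simp
    | cons hab _ ih =>
      intro hx
      have h1 := ih (fun a ha => hx a (List.mem_cons_of_mem _ ha))
      have h2 := hx _ List.mem_cons_self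
      refine ⟨by simp [h1.1, hh _ h2 _ hab], ?_⟩
      intro b hb
      rcases List.mem_cons.mp hb with rfl | hb
      · exact ⟨_, h2, hab⟩
      · exact h1.2 b hb
  have key : ∀ β, Relation.ReflTransGen G'.Step [G'.S] β →
      Relation.ReflTransGen G.Step [G.S] (β.map h) ∧ ∀ b ∈ β, ∃ a ∈ G.V, b ∈ μ a := by
    intro β hβ
    induction hβ with
    | refl =>
      have h1 := hh _ G.S_mem.1 _ hI.start
      refine ⟨by simp [h1]; exact .refl, ?_⟩
      intro b hb
      rw [List.mem_singleton.mp hb]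
      exact ⟨_, G.S_mem.1, hI.start⟩
    | tail _ hs ih =>
      obtain ⟨l, r, B, y, hB, rfl, rfl⟩ := hs
      obtain ⟨⟨A, x⟩, hA, hBA, hf⟩ := hI.prod _ hB
      simp only at hBA hf
      have h3 := G.P_mem _ hA
      have h1 := hmap y x hf h3.2.2
      have h2 := hh _ h3.1 _ hBA
      refine ⟨ih.1.tail ⟨l.map h, r.map h, A, x, hA, by simp [h2], by simp [h1.1]⟩, ?_⟩
      intro b hb
      simp only [List.mem_append] at hb
      rcases hb with (hb | hb) | hb
      · exact ih.2 b (by simp [hb])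
      · exact h1.2 b hb
      · exact ih.2 b (by simp [hb])
  refine ⟨h, fun w hw => ?_⟩
  obtain ⟨h1, h2⟩ := key w hw.2
  refine ⟨?_, h1⟩
  intro a ha
  obtain ⟨b, hb, rfl⟩ := List.mem_map.mp ha
  obtain ⟨a', ha', hba⟩ := h2 b hb
  rw [hh _ ha' _ hba]
  by_contra hT
  exact (hI.nonterm a' ha' hT b hba).2 (hw.1 b hb)

theorem self_mem (G : Form) : G.lang \ {[]} ∈ G.family := by
  refine ⟨G, fun a => {a}, ?_, ⟨?_, ?_, ?_, ?_⟩, rfl⟩
  · intro a _ b _ hab
    simpa using hab
  · intro A hA hT b hb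
    rw [Finset.mem_singleton.mp hb]
    exact ⟨hA, hT⟩
  · intro a ha
    simpa using ha
  · intro q hq
    refine ⟨q, hq, by simp, ?_⟩
    have : ∀ y : List ℕ, List.Forall₂ (fun b a => b ∈ ({a} : Finset ℕ)) y y := by
      intro y
      induction y with
      | nil => exact .nil
      | cons b y ih => exact .cons (by simp) ih
    exact this _
  · simp

/-- words of length two only (up to the empty word) -/
def Two (L : Set (List ℕ)) : Prop := ∀ w ∈ L, w ≠ [] → w.length = 2

theorem lang_fin_of_two {G : Form} (h2 : Two G.lang) : (G.lang \ {[]}).Finite := by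
  apply Set.Finite.subset (((G.T.finite_toSet).prod (G.T.finite_toSet)).image
    (fun p : ℕ × ℕ => [p.1, p.2]))
  rintro w ⟨hw, hne⟩
  have h3 := h2 w hw hne
  obtain ⟨a, b, rfl⟩ := List.length_eq_two.mp h3
  exact ⟨(a, b), ⟨hw.1 a (by simp), hw.1 b (by simp)⟩, rfl⟩

/-- the languages in the family of a form with words of length two -/
theorem family_fwd {G : Form} (h2 : Two G.lang) {L : Set (List ℕ)} (hL : L ∈ G.family) :
    L.Finite ∧ (∀ w ∈ L, w.length = 2) ∧ ∃ h : ℕ → ℕ, ∀ w ∈ L, w.map h ∈ G.lang := by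
  obtain ⟨G', μ, hd, hI, rfl⟩ := hL
  obtain ⟨h, hh⟩ := fwd hd hI
  have h3 : Two G'.lang := by
    intro w hw hne
    have := h2 _ (hh w hw) (by simpa using hne)
    simpa using this
  exact ⟨lang_fin_of_two h3, fun w hw => h3 w hw.1 hw.2, h, fun w hw => hh w hw.1⟩

end Pool.Agent.U571.GF
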