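import Mathlib

/-! Finite digraphs with large chromatic number all of whose small sets of arcs are bipartite
(iterated arc graphs of transitive tournaments). -/

namespace Pool.Agent.U571.GF

/-- the arc graph on codes of pairs -/
def arcG (R : ℕ → ℕ → Prop) (z z' : ℕ) : Prop :=
  R (Nat.unpair z).1 (Nat.unpair z).2 ∧ R (Nat.unpair z').1 (Nat.unpair z').2 ∧
    (Nat.unpair z).2 = (Nat.unpair z').1

theorem exK (m : ℕ) : ∀ N : ℕ, ∃ (R : ℕ → ℕ → Prop) (p : ℕ → ℕ),
    {a : ℕ × ℕ | R a.1 a.2}.Finite ∧ (∀ u v, R u v → p u < p v) ∧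
    (∀ (α : Type) [Fintype α], Fintype.card α ≤ N → ∀ c : ℕ → α, ∃ i j, R i j ∧ c i = c j) ∧
    (∀ A : Finset (ℕ × ℕ), A.card ≤ m → (∀ a ∈ A, R a.1 a.2) →
      ∃ b : ℕ → Bool, ∀ a ∈ A, b a.1 ≠ b a.2) := by
  classical
  induction m with
  | zero =>
    intro N
    refine ⟨fun i j => i < j ∧ j ≤ N, id, ?_, ?_, ?_, ?_⟩
    · apply Set.Finite.subset (Finset.finite_toSet (Finset.range (N+1) ×ˢ Finset.range (N+1)))
      rintro ⟨i, j⟩ ⟨h1, h2⟩
      simp only at h1 h2
      simp; omega
    · intro u v h; exact h.1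
    · intro α _ hα c
      obtain ⟨x, y, hxy, hc⟩ := Fintype.exists_ne_map_eq_of_card_lt
        (fun k : Fin (N+1) => c k.1) (by simpa using Nat.lt_succ_of_le hα)
      rcases lt_or_gt_of_ne (fun h => hxy (Fin.ext h) : x.1 ≠ y.1) with h | h
      · exact ⟨x.1, y.1, ⟨h, Nat.lt_succ_iff.mp y.2⟩, hc⟩
      · exact ⟨y.1, x.1, ⟨h, Nat.lt_succ_iff.mp x.2⟩, hc.symm⟩
    · intro A hA _
      have : A = ∅ := Finset.card_eq_zero.mp (Nat.le_zero.mp hA)
      subst this
      exact ⟨fun _ => true, by simp⟩
  | succ m ih =>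
    intro N
    obtain ⟨R, p, hfin, hp, hcol, hbip⟩ := ih (2 ^ N)
    refine ⟨arcG R, fun z => p (Nat.unpair z).1, ?_, ?_, ?_, ?_⟩
    · apply Set.Finite.subset ((hfin.prod hfin).image
        (fun q : (ℕ × ℕ) × (ℕ × ℕ) => (Nat.pair q.1.1 q.1.2, Nat.pair q.2.1 q.2.2)))
      rintro ⟨z, z'⟩ ⟨h1, h2, _⟩
      refine ⟨(Nat.unpair z, Nat.unpair z'), ⟨h1, h2⟩, ?_⟩
      simp
    · rintro u v ⟨h1, _, h3⟩
      simp only
      rw [← h3]
      exact hp _ _ h1
    · intro α _ hα c
      let c' : ℕ → Finset α := fun v => Finset.univ.filter (fun a => ∃ w, R v w ∧ c (Nat.pair v w) = a)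
      obtain ⟨u, v, huv, hc⟩ := hcol (Finset α) (by
        rw [Fintype.card_finset]; exact Nat.pow_le_pow_right (by norm_num) hα) c'
      have h1 : c (Nat.pair u v) ∈ c' u := by simp [c']; exact ⟨v, huv, rfl⟩
      rw [hc] at h1
      simp only [c', Finset.mem_filter, Finset.mem_univ, true_and] at h1
      obtain ⟨w, hw, hcw⟩ := h1
      refine ⟨Nat.pair u v, Nat.pair v w, ⟨?_, ?_, ?_⟩, hcw.symm⟩ <;> simp [huv, hw]
    · intro A hA hAR
      by_cases hc : (A.image Prod.fst).card ≤ m
      · obtain ⟨b, hb⟩ := hbip ((A.image Prod.fst).image Nat.unpair)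
          (le_trans Finset.card_image_le hc) (by
            intro a ha
            simp only [Finset.mem_image] at ha
            obtain ⟨z, ⟨a', ha', rfl⟩, rfl⟩ := ha
            exact (hAR a' ha').1)
        refine ⟨fun z => b (Nat.unpair z).1, ?_⟩
        intro a ha
        simp only
        rw [← (hAR a ha).2.2]
        exact hb (Nat.unpair a.1) (Finset.mem_image_of_mem _ (Finset.mem_image_of_mem _ ha))
      · push Not at hc
        have hcard : (A.image Prod.fst).card = A.card :=
          le_antisymm Finset.card_image_le (by omega)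
        have hinj := Finset.card_image_iff.mp hcard
        have hne : A.Nonempty := by
          rw [← Finset.card_pos]; omega
        obtain ⟨a0, ha0, hmin⟩ := Finset.exists_min_image A (fun a => p (Nat.unpair a.1).1) hne
        obtain ⟨b, hb⟩ := hbip (((A.image Prod.fst).erase a0.1).image Nat.unpair)
          (le_trans Finset.card_image_le (by
            rw [Finset.card_erase_of_mem (Finset.mem_image_of_mem _ ha0)]; omega)) (by
            intro a ha
            simp only [Finset.mem_image, Finset.mem_erase] at ha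
            obtain ⟨z, ⟨_, a', ha', rfl⟩, rfl⟩ := ha
            exact (hAR a' ha').1)
        refine ⟨fun z => if z = a0.1 then !b (Nat.unpair a0.1).2 else b (Nat.unpair z).1, ?_⟩
        intro a ha
        have h3 := (hAR a ha).2.2
        by_cases hz : a.1 = a0.1
        · have haa : a = a0 := hinj ha ha0 hz
          subst haa
          have hne' : a.2 ≠ a.1 := by
            intro h
            have h4 := hp _ _ (hAR a ha).1
            rw [h3, h] at h4
            exact lt_irrefl _ h4
          simp only [if_true, if_neg hne', ← h3]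
          cases b (Nat.unpair a.1).2 <;> simp
        · have hne' : a.2 ≠ a0.1 := by
            intro h
            have h4 := hp _ _ (hAR a ha).1
            rw [h3, h] at h4
            exact absurd (hmin a ha) (not_le.mpr h4)
          simp only [if_neg hz, if_neg hne', ← h3]
          exact hb (Nat.unpair a.1) (Finset.mem_image_of_mem _ (Finset.mem_erase.mpr
            ⟨hz, Finset.mem_image_of_mem _ ha⟩))

end Pool.Agent.U571.GF
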