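import Pool.Agent.U571.GF.Bwd
import Pool.Agent.U571.GF.Graph

namespace Pool.Agent.U571.GF

theorem family_bwd' {G : Form} {L : Set (List ℕ)} (hf : L.Finite) (h2 : ∀ w ∈ L, w.length = 2)
    {h : ℕ → ℕ} (hh : ∀ w ∈ L, w.map h ∈ G.lang) : L ∈ G.family := by
  obtain ⟨G', ⟨μ, hd, hI⟩, hL⟩ := family_bwd hf h2 hh
  refine ⟨G', μ, hd, hI, ?_⟩
  rw [hL]
  ext w
  constructor
  · intro hw
    refine ⟨hw, ?_⟩
    rintro rfl
    simpa using h2 [] hw
  · exact fun hw => hw.1

/-- the letter code of a vertex of the product -/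
def cd (x i : ℕ) : ℕ := 2 * Nat.pair x i + 1

theorem cd_inj {x i y j : ℕ} (h : cd x i = cd y j) : x = y ∧ i = j := by
  unfold cd at h
  exact Nat.pair_eq_pair.mp (by omega)

/-- a language strictly between two languages of words of length two above the language
`{ab, ba}` -/
theorem between {D₁ D₂ : Set (List ℕ)} (hf1 : D₁.Finite) (hf2 : D₂.Finite)
    (h1 : ∀ w ∈ D₁, w.length = 2) (h2 : ∀ w ∈ D₂, w.length = 2)
    (hK : ∃ s t : ℕ, [s, t] ∈ D₁ ∧ [t, s] ∈ D₁)
    (h12 : ∃ f : ℕ → ℕ, ∀ w ∈ D₁, w.map f ∈ D₂)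
    (h21 : ¬ ∃ f : ℕ → ℕ, ∀ w ∈ D₂, w.map f ∈ D₁) :
    ∃ D₃ : Set (List ℕ), D₃.Finite ∧ (∀ w ∈ D₃, w.length = 2) ∧
      (∃ f : ℕ → ℕ, ∀ w ∈ D₁, w.map f ∈ D₃) ∧ (∃ f : ℕ → ℕ, ∀ w ∈ D₃, w.map f ∈ D₂) ∧
      (¬ ∃ f : ℕ → ℕ, ∀ w ∈ D₃, w.map f ∈ D₁) ∧ (¬ ∃ f : ℕ → ℕ, ∀ w ∈ D₂, w.map f ∈ D₃) := by
  classical
  -- bounds for the letters
  have hbd : ∀ D : Set (List ℕ), D.Finite → ∃ B : ℕ, ∀ w ∈ D, ∀ b ∈ w, b < B := by
    intro D hD
    let X : Finset ℕ := hD.toFinset.biUnion (fun w => w.toFinset)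
    refine ⟨X.sup id + 1, fun w hw b hb => Nat.lt_succ_of_le (Finset.le_sup (f := id) ?_)⟩
    simp only [X, Finset.mem_biUnion]
    exact ⟨w, by simpa using hw, by simpa using hb⟩
  obtain ⟨B₁, hB₁⟩ := hbd D₁ hf1
  obtain ⟨B₂, hB₂⟩ := hbd D₂ hf2
  obtain ⟨R, p, hfin, _, hcol, hbip⟩ := exK hf2.toFinset.card
    (Fintype.card (Fin B₂ → Fin (B₁ + 1)))
  let E₁ : Set (List ℕ) := {w | ∃ x y, [x, y] ∈ D₁ ∧ w = [2 * x, 2 * y]}
  let E₂ : Set (List ℕ) := {w | ∃ x y i j, [x, y] ∈ D₂ ∧ R i j ∧ w = [cd x i, cd y j]}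
  have hE₁ : E₁.Finite := by
    apply (hf1.image (fun w => w.map (fun x => 2 * x))).subset
    rintro w ⟨x, y, hxy, rfl⟩
    exact ⟨[x, y], hxy, rfl⟩
  have hE₂ : E₂.Finite := by
    apply ((hf2.prod hfin).image
      (fun q : List ℕ × (ℕ × ℕ) => [cd (q.1.getD 0 0) q.2.1, cd (q.1.getD 1 0) q.2.2])).subset
    rintro w ⟨x, y, i, j, hxy, hij, rfl⟩
    exact ⟨([x, y], (i, j)), ⟨hxy, hij⟩, by simp⟩
  obtain ⟨f12, hf12⟩ := h12
  obtain ⟨s, t, hst, hts⟩ := hK
  refine ⟨E₁ ∪ E₂, hE₁.union hE₂, ?_, ⟨fun x => 2 * x, ?_⟩, ?_, ?_, ?_⟩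
  · rintro w (⟨x, y, _, rfl⟩ | ⟨x, y, i, j, _, _, rfl⟩) <;> rfl
  · intro w hw
    obtain ⟨a, b, rfl⟩ := List.length_eq_two.mp (h1 w hw)
    exact Or.inl ⟨a, b, hw, rfl⟩
  · refine ⟨fun z => if z % 2 = 0 then f12 (z / 2) else (Nat.unpair (z / 2)).1, ?_⟩
    rintro w (⟨x, y, hxy, rfl⟩ | ⟨x, y, i, j, hxy, _, rfl⟩)
    · have := hf12 _ hxy
      simpa using this
    · have e1 : ∀ x i, cd x i % 2 = 1 := by intro x i; unfold cd; omega
      have e2 : ∀ x i, cd x i / 2 = Nat.pair x i := by intro x i; unfold cd; omega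
      simpa [e1, e2] using hxy
  · rintro ⟨g, hg⟩
    let c : ℕ → (Fin B₂ → Fin (B₁ + 1)) := fun i x =>
      ⟨min (g (cd x.1 i)) B₁, Nat.lt_succ_of_le (min_le_right _ _)⟩
    obtain ⟨i, j, hij, hc⟩ := hcol (Fin B₂ → Fin (B₁ + 1)) le_rfl c
    apply h21
    refine ⟨fun x => g (cd x i), ?_⟩
    intro w hw
    obtain ⟨x, y, rfl⟩ := List.length_eq_two.mp (h2 w hw)
    have h3 : [g (cd x i), g (cd y j)] ∈ D₁ := by
      have := hg _ (Or.inr ⟨x, y, i, j, hw, hij, rfl⟩ : [cd x i, cd y j] ∈ E₁ ∪ E₂)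
      simpa using this
    have h4 : g (cd y j) < B₁ := hB₁ _ h3 _ (by simp)
    have hy : y < B₂ := hB₂ _ hw y (by simp)
    have h5 := congrArg (fun φ => (φ ⟨y, hy⟩ : Fin (B₁ + 1)).1) hc
    simp only [c] at h5
    have h6 : g (cd y i) = g (cd y j) := by
      rw [min_eq_left h4.le] at h5
      rcases le_total (g (cd y i)) B₁ with h7 | h7
      · rwa [min_eq_left h7] at h5
      · rw [min_eq_right h7] at h5; omega
    simp only [List.map_cons, List.map_nil]
    rw [h6]
    exact h3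
  · rintro ⟨f, hf⟩
    -- the arcs used on the product part
    let A : Finset (ℕ × ℕ) := (hf2.toFinset.filter (fun w => w.map f ∈ E₂)).image
      (fun w => ((Nat.unpair (f (w.getD 0 0) / 2)).2, (Nat.unpair (f (w.getD 1 0) / 2)).2))
    have e2 : ∀ x i, cd x i / 2 = Nat.pair x i := by intro x i; unfold cd; omega
    obtain ⟨b, hb⟩ := hbip A
      (le_trans Finset.card_image_le (Finset.card_le_card (Finset.filter_subset _ _))) (by
        intro a ha
        simp only [A, Finset.mem_image, Finset.mem_filter, Set.Finite.mem_toFinset] at ha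
        obtain ⟨w, ⟨hw, hwE⟩, rfl⟩ := ha
        obtain ⟨x, y, rfl⟩ := List.length_eq_two.mp (h2 w hw)
        obtain ⟨x', y', i, j, _, hij, he⟩ := hwE
        simp only [List.map_cons, List.map_nil, List.cons.injEq, and_true] at he
        simp only [List.getD_cons_zero, List.getD_cons_succ, he.1, he.2, e2, Nat.unpair_pair]
        exact hij)
    apply h21
    refine ⟨fun x => if f x % 2 = 0 then f x / 2 else
      if b (Nat.unpair (f x / 2)).2 then s else t, ?_⟩
    intro w hw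
    obtain ⟨x, y, rfl⟩ := List.length_eq_two.mp (h2 w hw)
    have h3 := hf _ hw
    rcases h3 with h3 | h3
    · obtain ⟨x', y', hxy', he⟩ := h3
      simp only [List.map_cons, List.map_nil, List.cons.injEq, and_true] at he
      simp only [List.map_cons, List.map_nil, he.1, he.2]
      simpa using hxy'
    · have h4 := hb ((Nat.unpair (f x / 2)).2, (Nat.unpair (f y / 2)).2) (by
        simp only [A, Finset.mem_image, Finset.mem_filter, Set.Finite.mem_toFinset]
        exact ⟨[x, y], ⟨hw, h3⟩, by simp⟩)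
      obtain ⟨x', y', i, j, _, hij, he⟩ := h3
      simp only [List.map_cons, List.map_nil, List.cons.injEq, and_true] at he
      have e1 : ∀ x i, cd x i % 2 = 1 := by intro x i; unfold cd; omega
      simp only [he.1, he.2, e2, Nat.unpair_pair] at h4
      simp only [List.map_cons, List.map_nil, he.1, he.2, e1, e2, Nat.unpair_pair, one_ne_zero,
        if_false]
      cases hbi : b i <;> cases hbj : b j <;> simp_all

theorem lang_F₁ : F₁.lang = {[1, 2], [2, 1]} := by
  have key : ∀ β, Relation.ReflTransGen F₁.Step [0] β → β = [0] ∨ β = [1, 2] ∨ β = [2, 1] := by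
    intro β hβ
    induction hβ with
    | refl => exact Or.inl rfl
    | tail _ hs ih =>
      obtain ⟨l, r, B, y, hB, rfl, rfl⟩ := hs
      have hB' : (B, y) = (0, [1, 2]) ∨ (B, y) = (0, [2, 1]) := hB
      have hB0 : B = 0 := by rcases hB' with h | h <;> exact (Prod.mk.inj h).1
      subst hB0
      rcases ih with h | h | h
      · have h1 : l = [] ∧ r = [] := by
          have := congrArg List.length h
          simp only [List.length_append, List.length_cons, List.length_nil] at this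
          constructor <;> apply List.eq_nil_of_length_eq_zero <;> omega
        obtain ⟨rfl, rfl⟩ := h1
        rcases hB' with h2 | h2 <;> rw [(Prod.mk.inj h2).2] <;> simp
      · exfalso
        have : (0 : ℕ) ∈ [1, 2] := by rw [← h]; simp
        simp at this
      · exfalso
        have : (0 : ℕ) ∈ [2, 1] := by rw [← h]; simp
        simp at this
  apply Set.Subset.antisymm
  · rintro w ⟨hT, hw⟩
    rcases key w hw with rfl | h | h
    · exfalso
      have := hT 0 (by simp)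
      simp [F₁] at this
    · exact Or.inl h
    · exact Or.inr h
  · rintro w (rfl | rfl)
    · refine ⟨by simp [F₁], Relation.ReflTransGen.single ⟨[], [], 0, [1, 2], Or.inl rfl, rfl, rfl⟩⟩
    · refine ⟨by simp [F₁], Relation.ReflTransGen.single ⟨[], [], 0, [2, 1], Or.inr rfl, rfl, rfl⟩⟩

theorem lang_F₂ : F₂.lang = {[1, 1]} := by
  have key : ∀ β, Relation.ReflTransGen F₂.Step [0] β → β = [0] ∨ β = [1, 1] := by
    intro β hβ
    induction hβ with
    | refl => exact Or.inl rfl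
    | tail _ hs ih =>
      obtain ⟨l, r, B, y, hB, rfl, rfl⟩ := hs
      have hB' : (B, y) = (0, [1, 1]) := hB
      obtain ⟨rfl, rfl⟩ := Prod.mk.inj hB'
      rcases ih with h | h
      · have h1 : l = [] ∧ r = [] := by
          have := congrArg List.length h
          simp only [List.length_append, List.length_cons, List.length_nil] at this
          constructor <;> apply List.eq_nil_of_length_eq_zero <;> omega
        obtain ⟨rfl, rfl⟩ := h1
        simp
      · exfalso
        have : (0 : ℕ) ∈ [1, 1] := by rw [← h]; simp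
        simp at this
  apply Set.Subset.antisymm
  · rintro w ⟨hT, hw⟩
    rcases key w hw with rfl | h
    · exfalso
      have := hT 0 (by simp)
      simp [F₂] at this
    · exact h
  · rintro w rfl
    refine ⟨by simp [F₂], Relation.ReflTransGen.single ⟨[], [], 0, [1, 1], rfl, rfl, rfl⟩⟩

theorem two_of_family {G : Form} (h : ∀ L ∈ G.family, ∀ w ∈ L, w.length = 2) : Two G.lang :=
  fun w hw hne => h _ (self_mem G) w ⟨hw, hne⟩

theorem main : F₁.lang.Finite ∧ F₂.lang.Finite ∧ DensePair F₁.family F₂.family := by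
  have t1 : Two F₁.lang := by
    rw [lang_F₁]
    rintro w (rfl | rfl) _ <;> rfl
  have t2 : Two F₂.lang := by
    rw [lang_F₂]
    rintro w rfl _
    rfl
  refine ⟨by rw [lang_F₁]; simp, by rw [lang_F₂]; simp, ⟨?_, ?_⟩, ?_⟩
  · intro L hL
    obtain ⟨hf, h2, _⟩ := family_fwd t1 hL
    refine family_bwd' hf h2 (h := fun _ => 1) ?_
    intro w hw
    obtain ⟨a, b, rfl⟩ := List.length_eq_two.mp (h2 w hw)
    rw [lang_F₂]
    rfl
  · intro hsub
    have h1 := hsub (self_mem F₂)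
    obtain ⟨_, _, h, hh⟩ := family_fwd t1 h1
    have h3 : [1, 1] ∈ F₂.lang \ {[]} := by rw [lang_F₂]; simp
    have h4 := hh _ h3
    rw [lang_F₁] at h4
    simp only [List.map_cons, List.map_nil, Set.mem_insert_iff, Set.mem_singleton_iff,
      List.cons.injEq, and_true] at h4
    omega
  · rintro _ _ ⟨G₁, rfl⟩ ⟨G₂, rfl⟩ h01 h12 h2F
    have hlen : ∀ L ∈ F₂.family, ∀ w ∈ L, w.length = 2 := fun L hL => (family_fwd t2 hL).2.1
    have tG₂ : Two G₂.lang := two_of_family (fun L hL => hlen L (h2F hL))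
    have tG₁ : Two G₁.lang := two_of_family (fun L hL => hlen L (h2F (h12.1 hL)))
    -- the letter maps
    obtain ⟨hfin1, hl1, f, hf⟩ := family_fwd tG₂ (h12.1 (self_mem G₁))
    obtain ⟨hfin2, hl2, _⟩ := family_fwd tG₂ (self_mem G₂)
    obtain ⟨_, _, k, hk⟩ := family_fwd tG₁ (h01 (self_mem F₁))
    have hmem : ∀ (G : Form) (w : List ℕ) (f : ℕ → ℕ), w.length = 2 → w.map f ∈ G.lang →
        w.map f ∈ G.lang \ {[]} := by
      intro G w f hw h
      refine ⟨h, ?_⟩
      intro h0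
      have := congrArg List.length (Set.mem_singleton_iff.mp h0)
      simp only [List.length_map, List.length_nil] at this
      omega
    have hno : ¬ ∃ g : ℕ → ℕ, ∀ w ∈ G₂.lang \ {[]}, w.map g ∈ G₁.lang \ {[]} := by
      rintro ⟨g, hg⟩
      apply h12.2
      intro L hL
      obtain ⟨hLf, hL2, h, hh⟩ := family_fwd tG₂ hL
      refine family_bwd' hLf hL2 (h := g ∘ h) ?_
      intro w hw
      have := hg _ (hmem G₂ w h (hL2 w hw) (hh w hw))
      rw [List.map_map] at this
      exact this.1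
    obtain ⟨D₃, hD3f, hD3l, ⟨f13, hf13⟩, ⟨f32, hf32⟩, h31, h23⟩ :=
      between hfin1 hfin2 hl1 hl2 (by
        refine ⟨k 1, k 2, ?_, ?_⟩
        · have := hmem G₁ [1, 2] k rfl (hk _ (by rw [lang_F₁]; simp))
          simpa using this
        · have := hmem G₁ [2, 1] k rfl (hk _ (by rw [lang_F₁]; simp))
          simpa using this)
        ⟨f, fun w hw => hmem G₂ w f (hl1 w hw) (hf w hw)⟩ hno
    obtain ⟨G₃, _, hG₃⟩ := family_bwd (G := G₂) hD3f hD3l (h := f32)
      (fun w hw => (hf32 w hw).1)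
    have tG₃ : Two G₃.lang := by
      intro w hw _
      exact hD3l w (hG₃ ▸ hw)
    have hD3 : G₃.lang \ {[]} = D₃ := by
      rw [hG₃]
      ext w
      constructor
      · exact fun h => h.1
      · intro h
        refine ⟨h, ?_⟩
        rintro rfl
        simpa using hD3l _ h
    refine ⟨G₃.family, ⟨G₃, rfl⟩, ⟨?_, ?_⟩, ⟨?_, ?_⟩⟩
    · intro L hL
      obtain ⟨hLf, hL2, h, hh⟩ := family_fwd tG₁ hL
      refine family_bwd' hLf hL2 (h := f13 ∘ h) ?_
      intro w hw
      have := hf13 _ (hmem G₁ w h (hL2 w hw) (hh w hw))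
      rw [List.map_map] at this
      rw [hG₃]
      exact this
    · intro hsub
      obtain ⟨_, _, h, hh⟩ := family_fwd tG₁ (hsub (self_mem G₃))
      rw [hD3] at hh
      exact h31 ⟨h, fun w hw => hmem G₁ w h (hD3l w hw) (hh w hw)⟩
    · intro L hL
      obtain ⟨hLf, hL2, h, hh⟩ := family_fwd tG₃ hL
      refine family_bwd' hLf hL2 (h := f32 ∘ h) ?_
      intro w hw
      have h5 := hh w hw
      rw [hG₃] at h5
      have := hf32 _ h5
      rw [List.map_map] at this
      exact this.1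
    · intro hsub
      obtain ⟨_, _, h, hh⟩ := family_fwd tG₃ (hsub (self_mem G₂))
      rw [hG₃] at hh
      exact h23 ⟨h, hh⟩

end Pool.Agent.U571.GF
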